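import Pool.Agent.Helper8.UN.Stmts

set_option autoImplicit false

open Finset

namespace Pool.Agent.Helper8.UN

theorem bkc_one {n : ℕ} (k k' : ℕ) (E : Finset (Finset (Fin n))) (W : Finset (Fin n))
    (y : Fin n) (f g : Fin n → ℕ) (h2 : Two E) (hg : g ∈ CC E (W.erase y) k) :
    bk E W k' f y ≤ bk E W k g y + ((nb E W y).filter (fun z => f z ≠ g z)).card +
      bl3 E W k' f y := by
  classical
  unfold bk bl3
  have hsub : (Finset.Icc 1 k').filter (fun i => Blk E W f y i) ⊆
      ((Finset.Icc 1 k).filter (fun i => Blk E W g y i) ∪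
        (((nb E W y).filter (fun z => f z ≠ g z)).image f)) ∪
        ((Finset.Icc 1 k').filter (fun i => ∃ e ∈ E, e ⊆ W ∧ y ∈ e ∧ 3 ≤ e.card ∧
          ∀ u ∈ e, u ≠ y → f u = i)) := by
    intro i hi
    rw [Finset.mem_filter] at hi
    obtain ⟨hi1, e, he, heW, hye, hei⟩ := hi
    by_cases h3 : 3 ≤ e.card
    · exact Finset.mem_union_right _ (Finset.mem_filter.2 ⟨hi1, e, he, heW, hye, h3, hei⟩)
    · have hc : e.card = 2 := by
        have := h2 e he
        omega
      have hc1 : (e.erase y).card = 1 := by
        rw [Finset.card_erase_of_mem hye, hc]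
      obtain ⟨z, hz⟩ := Finset.card_eq_one.1 hc1
      have hze : z ∈ e.erase y := by rw [hz]; exact Finset.mem_singleton_self z
      have hzy : z ≠ y := (Finset.mem_erase.1 hze).1
      have hzE : z ∈ e := (Finset.mem_erase.1 hze).2
      have heq : ({y, z} : Finset (Fin n)) = e := by
        rw [← Finset.insert_erase hye, hz]
      have hznb : z ∈ nb E W y := by
        unfold nb
        rw [Finset.mem_filter]
        exact ⟨heW hzE, hzy, by rw [heq]; exact he⟩
      have hfz : f z = i := hei z hzE hzy
      apply Finset.mem_union_left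
      by_cases hfg : f z = g z
      · apply Finset.mem_union_left
        rw [Finset.mem_filter]
        constructor
        · have h := (Finset.mem_filter.1 hg).1
          rw [Fintype.mem_piFinset] at h
          have h' := h z
          rw [if_pos (Finset.mem_erase.2 ⟨hzy, heW hzE⟩)] at h'
          rw [← hfz, hfg]
          exact h'
        · refine ⟨e, he, heW, hye, fun u hu huy => ?_⟩
          have hu' : u ∈ e.erase y := Finset.mem_erase.2 ⟨huy, hu⟩
          rw [hz, Finset.mem_singleton] at hu'
          rw [hu', ← hfg, hfz]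
      · apply Finset.mem_union_right
        rw [Finset.mem_image]
        exact ⟨z, Finset.mem_filter.2 ⟨hznb, hfg⟩, hfz⟩
  refine (Finset.card_le_card hsub).trans ?_
  refine (Finset.card_union_le _ _).trans ?_
  refine Nat.add_le_add ((Finset.card_union_le _ _).trans ?_) le_rfl
  exact Nat.add_le_add le_rfl Finset.card_image_le

theorem st_BKC : ST_BKC := by
  intro n k k' E W y f g h2 _ hf hg
  have h1 := bkc_one k k' E W y f g h2 hg
  have h3 := bkc_one k' k E W y g f h2 hf
  have h4 : (nb E W y).filter (fun z => g z ≠ f z) = (nb E W y).filter (fun z => f z ≠ g z) := by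
    apply Finset.filter_congr
    intro z _
    exact ne_comm
  rw [h4] at h3
  have h1' : (bk E W k' f y : ℝ) ≤ bk E W k g y +
      ((nb E W y).filter (fun z => f z ≠ g z)).card + bl3 E W k' f y := by exact_mod_cast h1
  have h3' : (bk E W k g y : ℝ) ≤ bk E W k' f y +
      ((nb E W y).filter (fun z => f z ≠ g z)).card + bl3 E W k g y := by exact_mod_cast h3
  have p1 : (0 : ℝ) ≤ bl3 E W k' f y := Nat.cast_nonneg _
  have p2 : (0 : ℝ) ≤ bl3 E W k g y := Nat.cast_nonneg _
  rw [abs_le]
  constructor <;> linarith

end Pool.Agent.Helper8.UN
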